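import Mathlib

/-!
# Eigenvectors of a derivation and fields generated by square roots
-/

set_option autoImplicit false

namespace Pool.Agent.Y255.HL

open Finset

variable {k E : Type} [Field k] [Field E] [Algebra k E]

/-- eigenvectors of a derivation with quotients outside a differential subfield are linearly independent over it -/
theorem eig (K : IntermediateField k E) (D : Derivation k E E) (hK : ∀ x ∈ K, D x ∈ K)
    (hconst : ∀ x : E, D x = 0 → x ∈ K) {ι : Type} [DecidableEq ι] (v : ι → E) (h0 : ∀ i, v i ≠ 0)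
    (hv : ∀ i, ∃ l ∈ K, D (v i) = l * v i) (hne : ∀ i j, i ≠ j → v i * (v j)⁻¹ ∉ K) (s : Finset ι) :
    ∀ a : ι → E, (∀ i, a i ∈ K) → ∑ i ∈ s, a i * v i = 0 → ∀ i ∈ s, a i = 0 := by
  choose l hlK hl using hv
  induction s using Finset.strongInduction with
  | H s ih =>
    intro a ha hsum
    by_contra hcon
    push_neg at hcon
    obtain ⟨i0, hi0, hai0⟩ := hcon
    set b : ι → E := fun i => a i * (a i0)⁻¹ with hb
    have hbK : ∀ i, b i ∈ K := fun i => mul_mem (ha i) (inv_mem (ha i0))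
    have hb0 : b i0 = 1 := mul_inv_cancel₀ hai0
    have hbsum : ∑ i ∈ s, b i * v i = 0 := by
      have h1 : ∑ i ∈ s, b i * v i = (a i0)⁻¹ * ∑ i ∈ s, a i * v i := by
        rw [mul_sum]
        exact sum_congr rfl fun i _ => by rw [hb]; ring
      rw [h1, hsum, mul_zero]
    set c : ι → E := fun i => D (b i) + (l i - l i0) * b i with hc
    have hcK : ∀ i, c i ∈ K := fun i => add_mem (hK _ (hbK i)) (mul_mem (sub_mem (hlK i) (hlK i0)) (hbK i))
    have hc0 : c i0 = 0 := by
      rw [hc]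
      simp only [hb0, sub_self, zero_mul, add_zero]
      exact Derivation.map_one_eq_zero D
    have hcsum : ∑ i ∈ s, c i * v i = 0 := by
      have h1 : D (∑ i ∈ s, b i * v i) = 0 := by rw [hbsum, map_zero]
      rw [map_sum] at h1
      have h2 : ∑ i ∈ s, c i * v i = ∑ i ∈ s, D (b i * v i) - l i0 * ∑ i ∈ s, b i * v i := by
        rw [mul_sum, ← sum_sub_distrib]
        refine sum_congr rfl fun i _ => ?_
        rw [Derivation.leibniz, hl i, smul_eq_mul, smul_eq_mul, hc]
        ring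
      rw [h2, h1, hbsum, mul_zero, sub_zero]
    rw [← add_sum_erase s _ hi0, hc0, zero_mul, zero_add] at hcsum
    have h1 := ih (s.erase i0) (erase_ssubset hi0) c hcK hcsum
    have h2 : ∀ i ∈ s.erase i0, b i = 0 := by
      intro i hi
      by_contra hbi
      have h3 : D (b i * v i * (v i0)⁻¹) = 0 := by
        have h4 : b i * v i * (v i0)⁻¹ * v i0 = b i * v i := by
          rw [mul_assoc, inv_mul_cancel₀ (h0 i0), mul_one]
        have h5 := congrArg D h4
        rw [Derivation.leibniz, Derivation.leibniz D (b i) (v i), hl i, hl i0] at h5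
        simp only [smul_eq_mul] at h5
        have h6 := h1 i hi
        rw [hc] at h6
        simp only at h6
        have h7 : v i0 * D (b i * v i * (v i0)⁻¹) = 0 := by
          linear_combination h5 + v i * h6 - l i0 * h4
        exact (mul_eq_zero.1 h7).resolve_left (h0 i0)
      have h4 := hconst _ h3
      apply hne i i0 (ne_of_mem_erase hi)
      have h5 : v i * (v i0)⁻¹ = (b i)⁻¹ * (b i * v i * (v i0)⁻¹) := by
        field_simp
      rw [h5]
      exact mul_mem (inv_mem (hbK i)) h4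
    rw [← add_sum_erase s _ hi0, hb0, one_mul, sum_eq_zero (fun i hi => by rw [h2 i hi, zero_mul]), add_zero] at hbsum
    exact h0 i0 hbsum

section roots
variable (K : IntermediateField k E) {ι : Type} [DecidableEq ι] (r : ι → E)

/-- the products of the square roots -/
def pr (T : Finset ι) : E := ∏ o ∈ T, r o

variable {r}

theorem pr_empty : pr r ∅ = 1 := prod_empty

theorem pr_singleton (o : ι) : pr r {o} = r o := prod_singleton _ _

theorem pr_ne (h0 : ∀ o, r o ≠ 0) (T : Finset ι) : pr r T ≠ 0 := prod_ne_zero_iff.2 fun o _ => h0 o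

theorem pr_sq (hr : ∀ o, r o ^ 2 ∈ K) (T : Finset ι) : pr r T ^ 2 ∈ K := by
  rw [pr, ← prod_pow]
  exact prod_mem fun o _ => hr o

theorem pr_mul (T T' : Finset ι) : pr r T * pr r T' = pr r (symmDiff T T') * pr r (T ∩ T') ^ 2 := by
  have h1 : pr r T = pr r (T \ T') * pr r (T ∩ T') := by
    unfold pr
    rw [← prod_union (disjoint_sdiff_inter T T'), sdiff_union_inter]
  have h2 : pr r T' = pr r (T' \ T) * pr r (T ∩ T') := by
    unfold pr
    rw [inter_comm, ← prod_union (disjoint_sdiff_inter T' T), sdiff_union_inter]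
  have h3 : pr r (symmDiff T T') = pr r (T \ T') * pr r (T' \ T) := by
    unfold pr
    rw [← prod_union, symmDiff_def, sup_eq_union]
    rw [Finset.disjoint_left]
    intro x hx hx'
    rw [mem_sdiff] at hx hx'
    exact hx.2 hx'.1
  rw [h1, h2, h3]
  ring

theorem pr_quot (h0 : ∀ o, r o ≠ 0) (hr : ∀ o, r o ^ 2 ∈ K) (hns : ∀ T : Finset ι, T.Nonempty → pr r T ∉ K)
    (T T' : Finset ι) (h : T ≠ T') : pr r T * (pr r T')⁻¹ ∉ K := by
  intro hx
  apply hns (symmDiff T T') (by rw [Finset.nonempty_iff_ne_empty]; intro h1; exact h (symmDiff_eq_bot.1 h1))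
  have h1 := pr_mul (r := r) T T'
  have h2 := pr_ne h0 T'
  have h3 := pr_ne h0 (T ∩ T')
  have h4 : pr r (symmDiff T T') = (pr r T * (pr r T')⁻¹) * pr r T' ^ 2 * (pr r (T ∩ T') ^ 2)⁻¹ := by
    field_simp
    linear_combination -h1
  rw [h4]
  exact mul_mem (mul_mem hx (pr_sq K hr _)) (inv_mem (pr_sq K hr _))

theorem root_eig [CharZero E] (D : Derivation k E E) (hK : ∀ x ∈ K, D x ∈ K) (h0 : ∀ o, r o ≠ 0) (hr : ∀ o, r o ^ 2 ∈ K)
    (T : Finset ι) : ∃ l ∈ K, D (pr r T) = l * pr r T := by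
  refine ⟨D (pr r T ^ 2) * (2 * pr r T ^ 2)⁻¹,
    mul_mem (hK _ (pr_sq K hr T)) (inv_mem (mul_mem (natCast_mem K 2) (pr_sq K hr T))), ?_⟩
  have h1 := pr_ne h0 T
  rw [Derivation.leibniz_pow]
  simp only [Nat.add_one_sub_one, pow_one, smul_eq_mul, nsmul_eq_mul, Nat.cast_ofNat]
  field_simp

theorem pr_lin [CharZero E] (D : Derivation k E E) (hK : ∀ x ∈ K, D x ∈ K) (hconst : ∀ x : E, D x = 0 → x ∈ K)
    (h0 : ∀ o, r o ≠ 0) (hr : ∀ o, r o ^ 2 ∈ K) (hns : ∀ T : Finset ι, T.Nonempty → pr r T ∉ K)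
    (s : Finset (Finset ι)) (a : Finset ι → E) (ha : ∀ T, a T ∈ K) (hs : ∑ T ∈ s, a T * pr r T = 0) :
    ∀ T ∈ s, a T = 0 :=
  eig K D hK hconst (fun T => pr r T) (pr_ne h0) (root_eig K D hK h0 hr) (pr_quot K h0 hr hns) s a ha hs

variable (r) in
/-- the field generated by the square roots -/
noncomputable def Lf : IntermediateField k E := (IntermediateField.adjoin K (Set.range r)).restrictScalars k

theorem K_le_Lf : K ≤ Lf K r := by
  intro x hx
  exact (IntermediateField.adjoin K (Set.range r)).algebraMap_mem ⟨x, hx⟩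

theorem r_mem (o : ι) : r o ∈ Lf K r := IntermediateField.subset_adjoin K (Set.range r) ⟨o, rfl⟩

theorem mem_Lf [Fintype ι] (hr : ∀ o, r o ^ 2 ∈ K) (x : E) (hx : x ∈ Lf K r) :
    ∃ a : Finset ι → E, (∀ T, a T ∈ K) ∧ x = ∑ T, a T * pr r T := by
  classical
  have halg : ∀ y ∈ Set.range r, IsAlgebraic K y := by
    rintro y ⟨o, rfl⟩
    refine IsAlgebraic.of_pow (n := 2) two_pos ?_
    exact isAlgebraic_algebraMap (A := E) (⟨r o ^ 2, hr o⟩ : K)
  have h1 : x ∈ Algebra.adjoin K (Set.range r) := by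
    rw [← IntermediateField.adjoin_toSubalgebra_of_isAlgebraic halg]
    exact hx
  have h2 : ∀ y ∈ Algebra.adjoin K (Set.range r), y ∈ Submodule.span K (Set.range (pr r)) := by
    intro y hy
    induction hy using Algebra.adjoin_induction with
    | mem y hy =>
      obtain ⟨o, rfl⟩ := hy
      rw [← pr_singleton (r := r) o]
      exact Submodule.subset_span ⟨_, rfl⟩
    | algebraMap c =>
      rw [Algebra.algebraMap_eq_smul_one, ← pr_empty (r := r)]
      exact Submodule.smul_mem _ _ (Submodule.subset_span ⟨_, rfl⟩)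
    | add y z _ _ hy hz => exact add_mem hy hz
    | mul y z _ _ hy hz =>
      have h3 : y * z ∈ Submodule.span K (Set.range (pr r)) * Submodule.span K (Set.range (pr r)) :=
        Submodule.mul_mem_mul hy hz
      rw [Submodule.span_mul_span] at h3
      refine Submodule.span_le.2 ?_ h3
      rintro _ ⟨_, ⟨T, rfl⟩, _, ⟨T', rfl⟩, rfl⟩
      simp only
      rw [pr_mul, mul_comm]
      have h4 : pr r (T ∩ T') ^ 2 * pr r (symmDiff T T') =
          (⟨pr r (T ∩ T') ^ 2, pr_sq K hr _⟩ : K) • pr r (symmDiff T T') := rfl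
      rw [h4]
      exact Submodule.smul_mem _ _ (Submodule.subset_span ⟨_, rfl⟩)
  obtain ⟨c, hc⟩ := (Submodule.mem_span_range_iff_exists_fun K).1 (h2 x h1)
  exact ⟨fun T => (c T : E), fun T => (c T).2, hc.symm⟩

theorem pr_mem (T : Finset ι) : pr r T ∈ Lf K r := prod_mem fun o _ => r_mem K o

theorem D_Lf [CharZero E] [Fintype ι] (D : Derivation k E E) (hK : ∀ x ∈ K, D x ∈ K) (h0 : ∀ o, r o ≠ 0)
    (hr : ∀ o, r o ^ 2 ∈ K) (x : E) (hx : x ∈ Lf K r) : D x ∈ Lf K r := by
  obtain ⟨a, ha, rfl⟩ := mem_Lf K hr x hx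
  rw [map_sum]
  refine sum_mem fun T _ => ?_
  obtain ⟨l, hl, hD⟩ := root_eig K D hK h0 hr T
  rw [Derivation.leibniz, hD, smul_eq_mul, smul_eq_mul]
  exact add_mem (mul_mem (K_le_Lf K (ha T)) (mul_mem (K_le_Lf K hl) (pr_mem K T)))
    (mul_mem (pr_mem K T) (K_le_Lf K (hK _ (ha T))))

end roots

end Pool.Agent.Y255.HL
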