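import Mathlib

/-!
# Products of shifted square-free polynomials are not squares
-/

set_option autoImplicit false

namespace Pool.Agent.Y255.HL

open Finset Polynomial

theorem dir {Λ : Type} [LinearOrder Λ] (ψ : ℂ → Λ) (σ : ℤ) (hσ : σ * σ = 1)
    (hmono : ∀ (x : ℂ) (m : ℤ), 0 < m → ψ (x - ((σ * m : ℤ) : ℂ)) < ψ x) (R : Finset ℂ) (hR : R.Nonempty) {N : ℕ}
    (g : Fin N → ℤ) (hg : Function.Injective g) (T : Finset (Fin N)) (hT : T.Nonempty) :
    ∃ r ∈ R, (∀ x ∈ R, ψ r ≤ ψ x) ∧ ∃ l₀ ∈ T, (∀ l ∈ T, σ * g l ≤ σ * g l₀) ∧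
      ∀ l ∈ T, l ≠ l₀ → r - (g l₀ : ℂ) + (g l : ℂ) ∉ R := by
  obtain ⟨r, hr, hmin⟩ := exists_min_image R ψ hR
  obtain ⟨l₀, hl₀, hmax⟩ := exists_max_image T (fun l => σ * g l) hT
  refine ⟨r, hr, hmin, l₀, hl₀, hmax, ?_⟩
  intro l hl hne hmem
  have h1 := hmin _ hmem
  have h2 : 0 < σ * g l₀ - σ * g l := by
    have h3 := hmax l hl
    have h4 : σ * g l ≠ σ * g l₀ := by
      intro h5
      have h6 : σ * (σ * g l) = σ * (σ * g l₀) := by rw [h5]
      rw [← mul_assoc, ← mul_assoc, hσ, one_mul, one_mul] at h6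
      exact hne (hg h6)
    omega
  have h3 := hmono r _ h2
  have h4 : r - ((σ * (σ * g l₀ - σ * g l) : ℤ) : ℂ) = r - (g l₀ : ℂ) + (g l : ℂ) := by
    have h5 : σ * (σ * g l₀ - σ * g l) = g l₀ - g l := by
      linear_combination (g l₀ - g l) * hσ
    rw [h5]
    push_cast
    ring
  rw [h4] at h3
  exact absurd h1 (not_le.2 h3)

theorem rm_shift (G : ℂ[X]) (a t : ℂ) : rootMultiplicity a (G.comp (X + C t)) = rootMultiplicity (a + t) G := by
  rw [rootMultiplicity_eq_rootMultiplicity, rootMultiplicity_eq_rootMultiplicity (t := a + t), comp_assoc]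
  congr 2
  simp [add_assoc]

theorem rm_sf (G : ℂ[X]) (hG : Squarefree G) (x : ℂ) :
    rootMultiplicity x G = if x ∈ G.roots.toFinset then 1 else 0 := by
  classical
  have h0 : G ≠ 0 := hG.ne_zero
  split_ifs with h
  · rw [Multiset.mem_toFinset] at h
    have h1 : 0 < rootMultiplicity x G := by
      rw [rootMultiplicity_pos h0]
      exact isRoot_of_mem_roots h
    have h2 : rootMultiplicity x G ≤ 1 :=
      rootMultiplicity_le_one_of_separable (PerfectField.separable_iff_squarefree.2 hG) x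
    omega
  · rw [Multiset.mem_toFinset, mem_roots h0] at h
    exact rootMultiplicity_eq_zero h

theorem sum_rm (G : ℂ[X]) (hG : Squarefree G) {N : ℕ} (g : Fin N → ℤ) (T : Finset (Fin N)) (l₀ : Fin N) (hl₀ : l₀ ∈ T)
    (r : ℂ) (hr : r ∈ G.roots.toFinset) (h : ∀ l ∈ T, l ≠ l₀ → r - (g l₀ : ℂ) + (g l : ℂ) ∉ G.roots.toFinset) :
    ∑ l ∈ T, rootMultiplicity (r - (g l₀ : ℂ)) (G.comp (X + C (g l : ℂ))) = 1 := by
  rw [sum_eq_single_of_mem l₀ hl₀]
  · rw [rm_shift, rm_sf G hG, sub_add_cancel, if_pos hr]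
  · intro l hl hne
    rw [rm_shift, rm_sf G hG, if_neg (h l hl hne)]

/-- the lexicographic order of the complex plane -/
noncomputable def lx (z : ℂ) : ℝ ×ₗ ℝ := toLex (z.re, z.im)

theorem lx_inj : Function.Injective lx := by
  intro x y h
  have h1 := toLex.injective h
  rw [Prod.mk.injEq] at h1
  exact Complex.ext h1.1 h1.2

theorem lx_lt (x : ℂ) (t : ℝ) (ht : 0 < t) : lx (x - t) < lx x := by
  unfold lx
  rw [Prod.Lex.toLex_lt_toLex]
  left
  simp [ht]

theorem ext_root (G : ℂ[X]) (hG : Squarefree G) (hdeg : 2 ≤ G.natDegree) {N : ℕ} (g : Fin N → ℤ)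
    (hg : Function.Injective g) (T : Finset (Fin N)) (hT : T.Nonempty) :
    ∃ α : ℂ, α ≠ 0 ∧ ∑ l ∈ T, rootMultiplicity α (G.comp (X + C (g l : ℂ))) = 1 := by
  classical
  have h0 : G ≠ 0 := hG.ne_zero
  have hcard : G.roots.toFinset.card = G.natDegree := by
    rw [Multiset.toFinset_card_of_nodup (nodup_roots (PerfectField.separable_iff_squarefree.2 hG)),
      splits_iff_card_roots.1 (IsAlgClosed.splits G)]
  have hR : G.roots.toFinset.Nonempty := by
    rw [← card_pos, hcard]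
    omega
  obtain ⟨r1, hr1, hmin1, l1, hl1, hmax1, hout1⟩ := dir lx 1 (by norm_num) (by
    intro x m hm
    have h1 := lx_lt x m (by exact_mod_cast hm)
    have h2 : (((1 * m : ℤ)) : ℂ) = ((m : ℝ) : ℂ) := by push_cast; ring
    rw [h2]
    exact h1) G.roots.toFinset hR g hg T hT
  obtain ⟨r2, hr2, hmin2, l2, hl2, hmax2, hout2⟩ := dir (fun x => OrderDual.toDual (lx x)) (-1) (by norm_num) (by
    intro x m hm
    have h1 := lx_lt (x + m) m (by exact_mod_cast hm)
    have h2 : x - (((-1 * m : ℤ)) : ℂ) = x + m := by push_cast; ring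
    rw [h2]
    have h3 : x + m - ((m : ℝ) : ℂ) = x := by push_cast; ring
    rw [h3] at h1
    exact OrderDual.toDual_lt_toDual.2 h1) G.roots.toFinset hR g hg T hT
  by_cases ha1 : r1 - (g l1 : ℂ) = 0
  · by_cases ha2 : r2 - (g l2 : ℂ) = 0
    · exfalso
      have hle : g l2 ≤ g l1 := by
        have := hmax1 l2 hl2
        omega
      have h1 : r1 = (g l1 : ℂ) := sub_eq_zero.1 ha1
      have h2 : r2 = (g l2 : ℂ) := sub_eq_zero.1 ha2
      have h3 : lx r1 ≤ lx r2 := hmin1 r2 hr2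
      have h4 : r1 = r2 := by
        rcases lt_or_eq_of_le hle with h5 | h5
        · exfalso
          have h6 := lx_lt r1 ((g l1 - g l2 : ℤ) : ℝ) (by exact_mod_cast sub_pos.2 h5)
          have h7 : r1 - (((g l1 - g l2 : ℤ) : ℝ) : ℂ) = r2 := by
            rw [h1, h2]
            push_cast
            ring
          rw [h7] at h6
          exact absurd h3 (not_le.2 h6)
        · rw [h1, h2, h5]
      have h5 : G.roots.toFinset.card ≤ 1 := by
        rw [card_le_one]
        intro x hx y hy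
        have h6 : ∀ z ∈ G.roots.toFinset, z = r1 := by
          intro z hz
          apply lx_inj
          apply le_antisymm
          · have h7 : lx z ≤ lx r2 := OrderDual.toDual_le_toDual.1 (hmin2 z hz)
            rw [h4]
            exact h7
          · exact hmin1 z hz
        rw [h6 x hx, h6 y hy]
      omega
    · exact ⟨_, ha2, sum_rm G hG g T l2 hl2 r2 hr2 hout2⟩
  · exact ⟨_, ha1, sum_rm G hG g T l1 hl1 r1 hr1 hout1⟩

/-- the main lemma: no squares -/
theorem nosq (G : ℚ[X]) (hG : Squarefree G) (hdeg : 2 ≤ G.natDegree) {N : ℕ} (g : Fin N → ℕ)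
    (hg : Function.Injective g) (T : Finset (Fin N)) (hT : T.Nonempty) (A B : ℚ[X]) (c : ℚ) (hc : c ≠ 0) (e m : ℕ)
    (h : A ^ 2 * (X ^ e * ∏ l ∈ T, G.comp (X + C (g l : ℚ))) = B ^ 2 * (C c * X ^ m)) : B = 0 := by
  by_contra hB
  set φ : ℚ →+* ℂ := algebraMap ℚ ℂ
  have hinj : Function.Injective (map φ) := map_injective φ φ.injective
  have hG0 : G ≠ 0 := hG.ne_zero
  have hA : A ≠ 0 := by
    rintro rfl
    rw [zero_pow two_ne_zero, zero_mul] at h
    have h1 : B ^ 2 * (C c * X ^ m) ≠ 0 :=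
      mul_ne_zero (pow_ne_zero _ hB) (mul_ne_zero (C_ne_zero.2 hc) (pow_ne_zero _ X_ne_zero))
    exact h1 h.symm
  have hGm : Squarefree (G.map φ) :=
    ((PerfectField.separable_iff_squarefree.2 hG).map (f := φ)).squarefree
  obtain ⟨α, hα, hsum⟩ := ext_root (G.map φ) hGm (by rw [natDegree_map]; exact hdeg) (fun l => (g l : ℤ))
    (fun a b hab => hg (by simpa using hab)) T hT
  have h1 := congrArg (map φ) h
  simp only [Polynomial.map_mul, Polynomial.map_pow, Polynomial.map_prod, map_X, map_C] at h1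
  have h2 : ∀ l, map φ (G.comp (X + C (g l : ℚ))) = (G.map φ).comp (X + C ((g l : ℤ) : ℂ)) := by
    intro l
    rw [map_comp]
    simp [φ]
  simp only [h2] at h1
  have hX : ∀ i : ℕ, rootMultiplicity α ((X : ℂ[X]) ^ i) = 0 := by
    intro i
    apply rootMultiplicity_eq_zero
    simp [hα]
  have hcm : ∀ l, (G.map φ).comp (X + C ((g l : ℤ) : ℂ)) ≠ 0 := by
    intro l
    rw [← h2]
    intro h3
    have h4 : G.comp (X + C (g l : ℚ)) = 0 := hinj (by rw [h3, Polynomial.map_zero])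
    have h5 : (G.comp (X + C (g l : ℚ))).natDegree = G.natDegree := by
      rw [natDegree_comp, natDegree_X_add_C, mul_one]
    rw [h4, natDegree_zero] at h5
    omega
  have hprod : ∀ S : Finset (Fin N), rootMultiplicity α (∏ l ∈ S, (G.map φ).comp (X + C ((g l : ℤ) : ℂ))) =
      ∑ l ∈ S, rootMultiplicity α ((G.map φ).comp (X + C ((g l : ℤ) : ℂ))) := by
    intro S
    induction S using Finset.induction_on with
    | empty => simp [rootMultiplicity_eq_zero]
    | insert a S ha ih =>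
      rw [prod_insert ha, sum_insert ha, rootMultiplicity_mul, ih]
      exact mul_ne_zero (hcm a) (prod_ne_zero_iff.2 fun l _ => hcm l)
  have hAm : map φ A ≠ 0 := fun h3 => hA (hinj (by rw [h3, Polynomial.map_zero]))
  have hBm : map φ B ≠ 0 := fun h3 => hB (hinj (by rw [h3, Polynomial.map_zero]))
  have hP : (∏ l ∈ T, (G.map φ).comp (X + C ((g l : ℤ) : ℂ))) ≠ 0 := prod_ne_zero_iff.2 fun l _ => hcm l
  have hcc : (C (φ c) : ℂ[X]) ≠ 0 := C_ne_zero.2 (by simpa using hc)
  have h3 := congrArg (rootMultiplicity α) h1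
  rw [rootMultiplicity_mul (mul_ne_zero (pow_ne_zero _ hAm) (mul_ne_zero (pow_ne_zero _ X_ne_zero) hP)),
    rootMultiplicity_mul (mul_ne_zero (pow_ne_zero _ X_ne_zero) hP), hX, hprod, hsum,
    rootMultiplicity_mul (mul_ne_zero (pow_ne_zero _ hBm) (mul_ne_zero hcc (pow_ne_zero _ X_ne_zero))),
    rootMultiplicity_mul (mul_ne_zero hcc (pow_ne_zero _ X_ne_zero)), hX, rootMultiplicity_C, sq, sq,
    rootMultiplicity_mul (mul_ne_zero hAm hAm), rootMultiplicity_mul (mul_ne_zero hBm hBm)] at h3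
  omega

end Pool.Agent.Y255.HL
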