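import Pool.Agent.Y255.HL.Abs
import Pool.Agent.Y255.HL.Roots
import Pool.Agent.TH659.HY.Poly2
import Pool.Agent.Y796.LI.Core
import Pool.Agent.Y916.HStm

/-!
# The field of Laurent series in the square root of z
-/

set_option autoImplicit false

namespace Pool.Agent.Y255.HL

open Polynomial Pool.Agent.TH600.LC Pool.Agent.Y113 Pool.Agent.Y916.Hy

attribute [-instance] DivisionRing.toRatAlgebra

instance : CharZero (EE ℚ) := charZero_of_injective_algebraMap (algebraMap ℚ (EE ℚ)).injective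

/-- the square root of `z` -/
noncomputable def om : EE ℚ := emb ℚ PowerSeries.X

/-- `x = 1 / z` -/
noncomputable def ta : EE ℚ := (om ^ 2)⁻¹

/-- a power series in `z` as a power series in the square root -/
noncomputable def th : PowerSeries ℚ →+* EE ℚ :=
  (emb ℚ).comp (PowerSeries.expand (R := ℚ) 2 two_ne_zero).toRingHom

theorem th_apply (f : PowerSeries ℚ) : th f = emb ℚ (PowerSeries.expand 2 two_ne_zero f) := rfl

theorem om_ne : om ≠ 0 := by
  unfold om
  rw [Ne, map_eq_zero_iff _ emb_injective]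
  exact PowerSeries.X_ne_zero

theorem ta_ne : ta ≠ 0 := inv_ne_zero (pow_ne_zero 2 om_ne)

theorem om_sq : om ^ 2 = ta⁻¹ := by rw [ta, inv_inv]

theorem expand_inj : Function.Injective (PowerSeries.expand (R := ℚ) 2 two_ne_zero) := by
  intro f g h
  ext m
  rw [← PowerSeries.coeff_expand_mul 2 two_ne_zero f m, h, PowerSeries.coeff_expand_mul]

theorem th_inj : Function.Injective th := fun _ _ h => expand_inj (emb_injective h)

theorem th_C (c : ℚ) : th (PowerSeries.C c) = algebraMap ℚ (EE ℚ) c := by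
  rw [th_apply, PowerSeries.expand_C, IsScalarTower.algebraMap_apply ℚ (PowerSeries ℚ) (EE ℚ)]
  rfl

theorem th_X : th PowerSeries.X = om ^ 2 := by
  rw [th_apply, PowerSeries.expand_X, map_pow, om]

theorem th_poly (p : ℚ[X]) : th (p : PowerSeries ℚ) = aeval (om ^ 2) p := by
  induction p using Polynomial.induction_on' with
  | add p q hp hq => rw [Polynomial.coe_add, map_add, hp, hq, map_add]
  | monomial n a =>
    rw [← C_mul_X_pow_eq_monomial, Polynomial.coe_mul, Polynomial.coe_pow, Polynomial.coe_X, Polynomial.coe_C,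
      map_mul, map_pow, th_C, th_X, map_mul, map_pow, aeval_X, aeval_C]

theorem der_expand (f : PowerSeries ℚ) : PowerSeries.derivative ℚ (PowerSeries.expand 2 two_ne_zero f) =
    2 * PowerSeries.X * PowerSeries.expand 2 two_ne_zero (PowerSeries.derivative ℚ f) := by
  have h2 : (2 : PowerSeries ℚ) = PowerSeries.C 2 := (map_ofNat _ 2).symm
  ext m
  rw [PowerSeries.coeff_derivative, mul_assoc, h2, PowerSeries.coeff_C_mul, PowerSeries.coeff_expand]
  cases m with
  | zero => simp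
  | succ m =>
    rw [PowerSeries.coeff_succ_X_mul, PowerSeries.coeff_expand]
    by_cases h : 2 ∣ m
    · obtain ⟨i, rfl⟩ := h
      rw [if_pos ⟨i + 1, by ring⟩, if_pos ⟨i, rfl⟩, PowerSeries.coeff_derivative]
      have h3 : (2 * i + 1 + 1) / 2 = i + 1 := by omega
      have h4 : 2 * i / 2 = i := by omega
      rw [h3, h4]
      push_cast
      ring
    · rw [if_neg (by omega), if_neg h]
      simp

theorem aeval_ta_inj (Q : ℚ[X]) (h : aeval ta Q = 0) : Q = 0 := by
  by_contra hQ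
  have h1 : IsAlgebraic ℚ ta := ⟨Q, hQ, h⟩
  have h2 : IsAlgebraic ℚ (om ^ 2) := by
    rw [om_sq]
    exact h1.inv
  obtain ⟨p, hp, hp0⟩ := h2
  apply hp
  rw [← th_poly] at hp0
  have h3 := th_inj (hp0.trans (map_zero th).symm)
  exact Polynomial.coe_injective _ (by rw [h3, Polynomial.coe_zero])

/-- the field `ℚ(x)` -/
noncomputable def K0 : IntermediateField ℚ (EE ℚ) := IntermediateField.adjoin ℚ {ta}

theorem mem_K0 (x : EE ℚ) : x ∈ K0 ↔ ∃ A Q : ℚ[X], Q ≠ 0 ∧ x * aeval ta Q = aeval ta A := by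
  unfold K0
  rw [IntermediateField.mem_adjoin_simple_iff]
  constructor
  · rintro ⟨A, Q, rfl⟩
    by_cases hQ : Q = 0
    · refine ⟨0, 1, one_ne_zero, ?_⟩
      rw [hQ]
      simp
    · refine ⟨A, Q, hQ, ?_⟩
      rw [div_mul_cancel₀]
      exact fun h => hQ (aeval_ta_inj Q h)
  · rintro ⟨A, Q, hQ, h⟩
    refine ⟨A, Q, ?_⟩
    rw [eq_div_iff (fun h => hQ (aeval_ta_inj Q h)), h]

theorem poly_K0 (p : ℚ[X]) : aeval ta p ∈ K0 := (mem_K0 _).2 ⟨p, 1, one_ne_zero, by simp⟩

theorem ta_K0 : ta ∈ K0 := by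
  have h := poly_K0 X
  rwa [aeval_X] at h

theorem om_sq_K0 : om ^ 2 ∈ K0 := by
  rw [om_sq]
  exact inv_mem ta_K0

theorem poly2_K0 (p : ℚ[X]) : aeval (om ^ 2) p ∈ K0 := by
  have h : aeval (om ^ 2) p = ((aeval (⟨om ^ 2, om_sq_K0⟩ : K0) p : K0) : EE ℚ) := by
    exact aeval_algHom_apply (K0.val) (⟨om ^ 2, om_sq_K0⟩ : K0) p
  rw [h]
  exact SetLike.coe_mem _

section der
variable (DE : Derivation ℚ (EE ℚ) (EE ℚ))

/-- the derivation `d / dx` -/
noncomputable def DD : Derivation ℚ (EE ℚ) (EE ℚ) := (-(om ^ 3) / 2) • DE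

theorem DD_apply (x : EE ℚ) : DD DE x = (-(om ^ 3) / 2) * DE x := rfl

variable {DE} (hDE : ∀ u, DE (emb ℚ u) = emb ℚ (PowerSeries.derivative ℚ u))

include hDE

theorem DE_om : DE om = 1 := by
  rw [om, hDE, PowerSeries.derivative_X, map_one]

theorem DD_th (f : PowerSeries ℚ) : DD DE (th f) = -(om ^ 4) * th (PowerSeries.derivative ℚ f) := by
  rw [DD_apply, th_apply, hDE, der_expand, map_mul, map_mul, ← th_apply]
  have h2 : emb ℚ (2 : PowerSeries ℚ) = 2 := map_ofNat _ 2
  rw [h2]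
  change -(om ^ 3) / 2 * (2 * om * _) = _
  ring

theorem DD_zpow (q : ℤ) : DD DE (om ^ q) = -(q : EE ℚ) / 2 * om ^ (q + 2) := by
  have h1 : DE (om ^ q) = q * om ^ (q - 1) := by
    rw [Derivation.leibniz_zpow, DE_om hDE]
    simp
  rw [DD_apply, h1]
  have h3 : om ^ (q + 2) = om ^ 3 * om ^ (q - 1) := by
    rw [← zpow_natCast om 3, ← zpow_add₀ om_ne]
    congr 1
    push_cast
    ring
  rw [h3]
  ring

theorem DD_ta : DD DE ta = 1 := by
  have h1 : ta = om ^ (-2 : ℤ) := by
    rw [ta, zpow_neg]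
    rfl
  rw [h1, DD_zpow hDE]
  norm_num

theorem DD_aeval (P : ℚ[X]) : DD DE (aeval ta P) = aeval ta (derivative P) := by
  induction P using Polynomial.induction_on' with
  | add p q hp hq => rw [map_add, map_add, hp, hq, derivative_add, map_add]
  | monomial n a =>
    rw [aeval_monomial, derivative_monomial, aeval_monomial, Derivation.leibniz, Derivation.map_algebraMap,
      Derivation.leibniz_pow, DD_ta hDE, map_mul]
    simp only [smul_eq_mul, nsmul_eq_mul, mul_one, mul_zero, add_zero, map_natCast]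
    ring

theorem DD_const (x : EE ℚ) (hx : DD DE x = 0) : ∃ c : ℚ, algebraMap ℚ (EE ℚ) c = x := by
  rw [DD_apply] at hx
  have h1 : -(om ^ 3) / 2 ≠ 0 := div_ne_zero (neg_ne_zero.2 (pow_ne_zero 3 om_ne)) two_ne_zero
  exact Pool.Agent.Y796.LI.const_EE DE hDE x ((mul_eq_zero.1 hx).resolve_left h1)

theorem DD_K0 (x : EE ℚ) (hx : x ∈ K0) : DD DE x ∈ K0 := by
  obtain ⟨A, Q, hQ, h⟩ := (mem_K0 x).1 hx
  have h1 := congrArg (DD DE) h
  rw [Derivation.leibniz, DD_aeval hDE, DD_aeval hDE, smul_eq_mul, smul_eq_mul] at h1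
  refine (mem_K0 _).2 ⟨derivative A * Q - A * derivative Q, Q * Q, mul_ne_zero hQ hQ, ?_⟩
  simp only [map_mul, map_sub]
  linear_combination (aeval ta Q) * h1 - (aeval ta (derivative Q)) * h

theorem const_K0 (x : EE ℚ) (hx : DD DE x = 0) : x ∈ K0 := by
  obtain ⟨c, rfl⟩ := DD_const hDE x hx
  exact K0.algebraMap_mem c

end der

/-! ## the square roots -/

/-- the polynomial `F(x + g)` -/
noncomputable def fg (F : ℤ[X]) (g : ℕ) : ℚ[X] := (F.map (Int.castRingHom ℚ)).comp (X + C (g : ℚ))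

theorem fg_natDegree (F : ℤ[X]) (g : ℕ) : (fg F g).natDegree = F.natDegree := by
  rw [fg, natDegree_comp, natDegree_X_add_C, mul_one, natDegree_map_eq_of_injective (Int.cast_injective (α := ℚ))]

theorem comp_natDegree (F : ℤ[X]) (g : ℕ) : (F.comp (X + C (g : ℤ))).natDegree = F.natDegree := by
  rw [natDegree_comp, natDegree_X_add_C, mul_one]

theorem phi_coeff (F : ℤ[X]) (g : ℕ) : (phi F g).coeff 0 = F.leadingCoeff := by
  rw [phi, coeff_zero_reverse, leadingCoeff_comp (by rw [natDegree_X_add_C]; exact one_ne_zero), leadingCoeff_X_add_C,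
    one_pow, mul_one]

theorem th_ps (p : ℤ[X]) : th (ps p) = aeval (om ^ 2) (p.map (Int.castRingHom ℚ)) := th_poly _

theorem th_phi (F : ℤ[X]) (g : ℕ) : th (ps (phi F g)) * ta ^ F.natDegree = aeval ta (fg F g) := by
  have : Invertible ta := invertibleOfNonzero ta_ne
  have h1 := eval₂_reverse_mul_pow (algebraMap ℤ (EE ℚ)) ta (F.comp (X + C (g : ℤ)))
  rw [comp_natDegree] at h1
  have h2 : (⅟ta : EE ℚ) = om ^ 2 := by rw [invOf_eq_inv, om_sq]
  rw [h2] at h1
  have h3 : ∀ (x : EE ℚ) (p : ℤ[X]), eval₂ (algebraMap ℤ (EE ℚ)) x p = aeval x (p.map (Int.castRingHom ℚ)) := by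
    intro x p
    rw [aeval_def, eval₂_map]
    congr 1
    exact RingHom.ext_int _ _
  rw [h3, h3] at h1
  rw [th_ps, phi, h1, fg, map_comp]
  simp

section R
variable (hrt : S_rt) {F : ℤ[X]} (hF : Good F)

include hrt hF

theorem R_rel (g : ℕ) : th (Rt (phi F g)) ^ 2 * aeval ta (fg F g) = (F.leadingCoeff : EE ℚ) * ta ^ F.natDegree := by
  have h1 := (hrt (phi F g) (by rw [phi_coeff]; exact hF.pos)).1
  have h2 := congrArg th h1
  rw [map_mul, map_pow, th_C, phi_coeff] at h2
  rw [← th_phi, ← mul_assoc, h2]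
  simp

theorem lc_ne : (F.leadingCoeff : EE ℚ) ≠ 0 := Int.cast_ne_zero.2 hF.pos.ne'

theorem fg_ne (g : ℕ) : aeval ta (fg F g) ≠ 0 := by
  intro h
  have h1 := R_rel hrt hF g
  rw [h, mul_zero] at h1
  exact mul_ne_zero (lc_ne hrt hF) (pow_ne_zero _ ta_ne) h1.symm

theorem R_ne (g : ℕ) : th (Rt (phi F g)) ≠ 0 := by
  intro h
  have h1 := R_rel hrt hF g
  rw [h, zero_pow two_ne_zero, zero_mul] at h1
  exact mul_ne_zero (lc_ne hrt hF) (pow_ne_zero _ ta_ne) h1.symm

theorem R_sq (g : ℕ) : th (Rt (phi F g)) ^ 2 ∈ K0 := by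
  have h1 := R_rel hrt hF g
  have h2 : th (Rt (phi F g)) ^ 2 = (F.leadingCoeff : EE ℚ) * ta ^ F.natDegree * (aeval ta (fg F g))⁻¹ := by
    rw [← h1, mul_assoc, mul_inv_cancel₀ (fg_ne hrt hF g), mul_one]
  rw [h2]
  exact mul_mem (mul_mem (intCast_mem K0 _) (pow_mem ta_K0 _)) (inv_mem (poly_K0 _))

variable {N : ℕ} (g : Fin N → ℕ)

omit hrt hF in
variable (F) in
/-- the square roots -/
noncomputable def rr : Option (Fin N) → EE ℚ
  | none => om
  | some l => th (Rt (phi F (g l)))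

theorem rr_ne (o : Option (Fin N)) : rr F g o ≠ 0 := by
  cases o with
  | none => exact om_ne
  | some l => exact R_ne hrt hF (g l)

theorem rr_sq (o : Option (Fin N)) : rr F g o ^ 2 ∈ K0 := by
  cases o with
  | none => exact om_sq_K0
  | some l => exact R_sq hrt hF (g l)

omit hrt hF in
theorem prod_opt {M : Type} [CommMonoid M] (f : Option (Fin N) → M) (T : Finset (Option (Fin N))) :
    ∏ o ∈ T, f o = (if none ∈ T then f none else 1) * ∏ l ∈ Finset.eraseNone T, f (some l) := by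
  have h1 : ∏ l ∈ Finset.eraseNone T, f (some l) = ∏ o ∈ T.erase none, f o := by
    rw [← Finset.map_some_eraseNone, Finset.prod_map]
    rfl
  rw [h1]
  split_ifs with h
  · rw [Finset.mul_prod_erase T f h]
  · rw [Finset.erase_eq_of_notMem h, one_mul]

theorem rr_ns (hg : Function.Injective g) (T : Finset (Option (Fin N))) (hT : T.Nonempty) : pr (rr F g) T ∉ K0 := by
  intro hx
  obtain ⟨A, B, hB, hAB⟩ := (mem_K0 _).1 hx
  set T' := Finset.eraseNone T with hT'
  set n := F.natDegree with hn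
  have hsq : pr (rr F g) T ^ 2 * (ta ^ (if none ∈ T then 1 else 0) * ∏ l ∈ T', aeval ta (fg F (g l))) =
      ((F.leadingCoeff : EE ℚ) * ta ^ n) ^ T'.card := by
    have h1 : pr (rr F g) T ^ 2 = (if none ∈ T then om ^ 2 else 1) * ∏ l ∈ T', th (Rt (phi F (g l))) ^ 2 := by
      unfold pr
      rw [← Finset.prod_pow, prod_opt]
      rfl
    have h2 : (if none ∈ T then om ^ 2 else 1) * ta ^ (if none ∈ T then 1 else 0) = 1 := by
      split_ifs
      · rw [pow_one, om_sq, inv_mul_cancel₀ ta_ne]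
      · rw [pow_zero, one_mul]
    calc _ = ((if none ∈ T then om ^ 2 else 1) * ta ^ (if none ∈ T then 1 else 0)) *
          ∏ l ∈ T', (th (Rt (phi F (g l))) ^ 2 * aeval ta (fg F (g l))) := by
          rw [h1, Finset.prod_mul_distrib]
          ring
      _ = _ := by
          rw [h2, one_mul, Finset.prod_congr rfl (fun l _ => R_rel hrt hF (g l)), Finset.prod_const]
  have hpoly : A ^ 2 * (X ^ (if none ∈ T then 1 else 0) * ∏ l ∈ T', (fg F (g l))) =
      B ^ 2 * (C ((F.leadingCoeff : ℚ) ^ T'.card) * X ^ (n * T'.card)) := by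
    rw [← sub_eq_zero]
    apply aeval_ta_inj
    simp only [map_sub, map_mul, map_pow, map_prod, aeval_X, aeval_C, ← hAB]
    rw [mul_pow, ← pow_mul] at hsq
    have h3 : (algebraMap ℚ (EE ℚ)) (F.leadingCoeff : ℚ) = (F.leadingCoeff : EE ℚ) := by simp
    rw [h3]
    linear_combination (aeval ta B) ^ 2 * hsq
  rcases T'.eq_empty_or_nonempty with h0 | h0
  · have h1 : none ∈ T := by
      obtain ⟨o, ho⟩ := hT
      cases o with
      | none => exact ho
      | some l =>
        exfalso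
        have : l ∈ T' := Finset.mem_eraseNone.2 ho
        rw [h0] at this
        simp at this
    rw [h0, if_pos h1] at hpoly
    simp only [pow_one, Finset.prod_empty, mul_one, Finset.card_empty, pow_zero, map_one, mul_zero] at hpoly
    have hA : A ≠ 0 := by
      rintro rfl
      rw [zero_pow two_ne_zero, zero_mul] at hpoly
      exact pow_ne_zero 2 hB hpoly.symm
    have h2 := congrArg natDegree hpoly
    rw [natDegree_mul (pow_ne_zero 2 hA) X_ne_zero, natDegree_pow, natDegree_pow, natDegree_X] at h2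
    omega
  · apply hB
    refine nosq (F.map (Int.castRingHom ℚ)) hF.sf ?_ g hg T' h0 A B ((F.leadingCoeff : ℚ) ^ T'.card) ?_ _ _ hpoly
    · rw [natDegree_map_eq_of_injective (Int.cast_injective (α := ℚ))]
      have := hF.deg
      omega
    · exact pow_ne_zero _ (by exact_mod_cast hF.pos.ne')

end R

end Pool.Agent.Y255.HL
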