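import Pool.Agent.Y255.HL.Conc

/-!
# Algebraic independence of the shifted hyperelliptic integrals and logarithms
-/

set_option autoImplicit false

namespace Pool.Agent.Y255.HL

open Polynomial Pool.Agent.TH600.LC Pool.Agent.Y113 Pool.Agent.Y916.Hy

attribute [-instance] DivisionRing.toRatAlgebra

theorem EU_eq (a : ℤ) (ha : Odd a) (R : PowerSeries ℚ) :
    2 * (PowerSeries.X * PowerSeries.derivative ℚ (EU a R)) + PowerSeries.C (a : ℚ) * EU a R = 2 * R := by
  have h2 : (2 : PowerSeries ℚ) = PowerSeries.C 2 := (map_ofNat _ 2).symm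
  ext m
  rw [h2, map_add, PowerSeries.coeff_C_mul, PowerSeries.coeff_C_mul, PowerSeries.coeff_C_mul]
  have hm : (2 * (m : ℚ) + a) ≠ 0 := by
    intro h
    have h1 : (2 * (m : ℤ) + a) = 0 := by exact_mod_cast h
    obtain ⟨b, hb⟩ := ha
    omega
  have h1 : PowerSeries.coeff m (PowerSeries.X * PowerSeries.derivative ℚ (EU a R)) =
      m * PowerSeries.coeff m (EU a R) := by
    cases m with
    | zero => simp
    | succ m =>
      rw [PowerSeries.coeff_succ_X_mul, PowerSeries.coeff_derivative]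
      push_cast
      ring
  rw [h1, EU, PowerSeries.coeff_mk]
  field_simp
  try ring

theorem log_eq (g : ℕ) : (1 + PowerSeries.C (g : ℚ) * PowerSeries.X) *
    PowerSeries.derivative ℚ (PowerSeries.mk fun m => - ((-(g : ℚ)) ^ m / m)) = PowerSeries.C (g : ℚ) := by
  have hd : ∀ m, PowerSeries.coeff m (PowerSeries.derivative ℚ (PowerSeries.mk fun m => - ((-(g : ℚ)) ^ m / m))) =
      -(-(g : ℚ)) ^ (m + 1) := by
    intro m
    rw [PowerSeries.coeff_derivative, PowerSeries.coeff_mk]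
    have : ((m : ℚ) + 1) ≠ 0 := by positivity
    push_cast
    field_simp
  ext m
  rw [add_mul, one_mul, mul_assoc, map_add, PowerSeries.coeff_C_mul, hd, PowerSeries.coeff_C]
  cases m with
  | zero => simp
  | succ m =>
    rw [PowerSeries.coeff_succ_X_mul, hd, if_neg (Nat.succ_ne_zero m)]
    ring

section der
variable {DE : Derivation ℚ (EE ℚ) (EE ℚ)} (hDE : ∀ u, DE (emb ℚ u) = emb ℚ (PowerSeries.derivative ℚ u))

include hDE

theorem DD_int (n g j : ℕ) (a : ℤ) (ha : Odd a) (haj : a = (n : ℤ) - 2 - 2 * j) (R : PowerSeries ℚ) :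
    DD DE (om ^ a * th (EU a ((1 + PowerSeries.C (g : ℚ) * PowerSeries.X) ^ j * R))) =
      -(aeval ta ((X + C (g : ℚ)) ^ j)) * (om ^ n * th R) := by
  set U := EU a ((1 + PowerSeries.C (g : ℚ) * PowerSeries.X) ^ j * R) with hU
  have h1 := congrArg th (EU_eq a ha ((1 + PowerSeries.C (g : ℚ) * PowerSeries.X) ^ j * R))
  rw [← hU] at h1
  simp only [map_add, map_mul, map_pow, th_C, th_X, map_one, map_ofNat] at h1
  have h2 : om ^ (a + 2) * (1 + algebraMap ℚ (EE ℚ) g * om ^ 2) ^ j = om ^ n * (aeval ta ((X + C (g : ℚ)) ^ j)) := by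
    rw [map_pow, map_add, aeval_X, aeval_C]
    have h3 : ta + algebraMap ℚ (EE ℚ) g = ta * (1 + algebraMap ℚ (EE ℚ) g * om ^ 2) := by
      rw [om_sq]
      field_simp [ta_ne]
    rw [h3, mul_pow, ← mul_assoc]
    congr 1
    have h4 : ta = om ^ (-2 : ℤ) := by
      rw [ta, zpow_neg]
      rfl
    rw [h4, ← zpow_natCast (om ^ (-2 : ℤ)) j, ← zpow_mul, ← zpow_natCast om n, ← zpow_add₀ om_ne]
    congr 1
    rw [haj]
    ring
  have h5 : om ^ (a + 2) = om ^ a * om ^ 2 := by
    rw [zpow_add₀ om_ne]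
    rfl
  have h6 : algebraMap ℚ (EE ℚ) (a : ℚ) = (a : EE ℚ) := by simp
  rw [h6] at h1
  rw [Derivation.leibniz, DD_th hDE, DD_zpow hDE, smul_eq_mul, smul_eq_mul]
  rw [h5] at h2 ⊢
  linear_combination (-(om ^ a * om ^ 2) / 2) * h1 - (th R) * h2

theorem DD_log (g : ℕ) : DD DE (th (PowerSeries.mk fun m => - ((-(g : ℚ)) ^ m / m))) * (ta * (ta + (g : EE ℚ))) =
    -(g : EE ℚ) := by
  have h1 := congrArg th (log_eq g)
  simp only [map_add, map_mul, map_one, th_C, th_X] at h1
  have h6 : algebraMap ℚ (EE ℚ) (g : ℚ) = (g : EE ℚ) := by simp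
  rw [h6] at h1
  rw [DD_th hDE]
  have h2 : om ^ 2 * ta = 1 := by rw [om_sq, inv_mul_cancel₀ ta_ne]
  linear_combination (-(om ^ 2 * ta) * (om ^ 2 * ta)) * h1 +
    (om ^ 2 * ta * (-(g : EE ℚ)) - (g : EE ℚ) + (g : EE ℚ) * om ^ 2 * (om ^ 2 * ta) * 0) * h2 +
    (th (PowerSeries.derivative ℚ (PowerSeries.mk fun m => - ((-(g : ℚ)) ^ m / m))) * (g : EE ℚ) * om ^ 2 *
      (om ^ 2 * ta)) * h2

end der

/-! ## the two equations for rational functions -/

theorem map_zero_iff' (P : ℚ[X]) (h : P.map (algebraMap ℚ ℝ) = 0) : P = 0 :=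
  (Polynomial.map_eq_zero_iff (algebraMap ℚ ℝ).injective).1 h

theorem sq_map {G : ℚ[X]} (hG : Squarefree G) : Squarefree (G.map (algebraMap ℚ ℝ)) :=
  ((PerfectField.separable_iff_squarefree.2 hG).map (f := algebraMap ℚ ℝ)).squarefree

theorem keyQ {f : ℚ[X]} (hf : Squarefree f) (P Q W : ℚ[X]) (hQ : Q ≠ 0) (hW : W.natDegree + 2 ≤ f.natDegree)
    (h : 2 * f * (derivative P * Q - P * derivative Q) + P * derivative f * Q = 2 * Q * Q * W) : W = 0 := by
  apply map_zero_iff'
  refine TH659.HY.key (sq_map hf) (P.map (algebraMap ℚ ℝ)) (Q.map (algebraMap ℚ ℝ)) _ ?_ ?_ ?_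
  · intro h1
    exact hQ (map_zero_iff' Q h1)
  · rw [natDegree_map, natDegree_map]
    exact hW
  · have h1 := congrArg (Polynomial.map (algebraMap ℚ ℝ)) h
    simp only [Polynomial.map_add, Polynomial.map_mul, Polynomial.map_sub, Polynomial.derivative_map,
      Polynomial.map_ofNat] at h1 ⊢
    exact h1

theorem simpleQ {r : ℕ} (x e : Fin r → ℚ) (hx : Function.Injective x) (P Q : ℚ[X]) (hQ : Q ≠ 0)
    (h : (derivative P * Q - P * derivative Q) * ∏ i, (X + C (x i)) =
      Q * Q * ∑ i, C (e i) * ∏ j ∈ Finset.univ.erase i, (X + C (x j))) : e = 0 := by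
  have h0 := TH659.HY.simple (fun i => ((x i : ℚ) : ℝ)) (fun i => ((e i : ℚ) : ℝ)) (fun a b hab => hx (by simpa using hab))
    (P.map (algebraMap ℚ ℝ)) (Q.map (algebraMap ℚ ℝ)) (fun h1 => hQ (map_zero_iff' Q h1)) (by
      have h1 := congrArg (Polynomial.map (algebraMap ℚ ℝ)) h
      simp only [Polynomial.map_add, Polynomial.map_mul, Polynomial.map_sub, Polynomial.derivative_map,
        Polynomial.map_prod, Polynomial.map_sum, map_X, map_C] at h1 ⊢
      exact h1)
  funext i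
  have := congrFun h0 i
  simpa using this

theorem squarefree_fg {F : ℤ[X]} (hF : Good F) (g : ℕ) (c : ℚ) (hc : c ≠ 0) : Squarefree (C c * fg F g) := by
  have h1 : Squarefree (fg F g) := by
    intro x hx
    have h2 : x.comp (X - C (g : ℚ)) * x.comp (X - C (g : ℚ)) ∣ F.map (Int.castRingHom ℚ) := by
      obtain ⟨y, hy⟩ := hx
      refine ⟨y.comp (X - C (g : ℚ)), ?_⟩
      rw [← mul_comp, ← mul_comp, ← hy, fg, comp_assoc]
      simp
    have h3 := hF.sf _ h2
    have h4 : (x.comp (X - C (g : ℚ))).comp (X + C (g : ℚ)) = x := by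
      rw [comp_assoc]
      simp
    rw [← h4]
    obtain ⟨u, hu⟩ := h3
    have h5 : (x.comp (X - C (g : ℚ))).comp (X + C (g : ℚ)) * ((↑(u⁻¹) : ℚ[X]).comp (X + C (g : ℚ))) = 1 := by
      rw [← hu, ← mul_comp, Units.mul_inv, one_comp]
    exact IsUnit.of_mul_eq_one _ h5
  intro x hx
  apply h1 x
  have h2 : C c⁻¹ * (C c * fg F g) = fg F g := by
    rw [← mul_assoc, ← C_mul, inv_mul_cancel₀ hc, C_1, one_mul]
  rw [← h2]
  exact hx.mul_left _

section eqs
variable {DE : Derivation ℚ (EE ℚ) (EE ℚ)} (hDE : ∀ u, DE (emb ℚ u) = emb ℚ (PowerSeries.derivative ℚ u))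
  (hrt : S_rt) {F : ℤ[X]} (hF : Good F)

include hDE hrt hF

/-- the equation for the hyperelliptic integrals -/
theorem eq_int (g : ℕ) (W : ℚ[X]) (hW : W.natDegree + 2 ≤ F.natDegree) (b : EE ℚ) (hb : b ∈ K0)
    (h : DD DE (b * (om * th (Rt (phi F g)))) = -(aeval ta W) * (om ^ F.natDegree * th (Rt (phi F g)))) : W = 0 := by
  set n := F.natDegree with hn
  set R := th (Rt (phi F g)) with hR
  have hR0 : R ≠ 0 := R_ne hrt hF g
  have hrel : R ^ 2 * aeval ta (fg F g) = (F.leadingCoeff : EE ℚ) * ta ^ n := R_rel hrt hF g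
  set lc : ℚ := (F.leadingCoeff : ℚ) with hlc
  have hlc0 : lc ≠ 0 := Int.cast_ne_zero.2 hF.pos.ne'
  have hlcE : (F.leadingCoeff : EE ℚ) = algebraMap ℚ (EE ℚ) lc := by rw [hlc]; simp
  rw [hlcE] at hrel
  have hlcE0 : algebraMap ℚ (EE ℚ) lc ≠ 0 := by
    rw [Ne, map_eq_zero]
    exact hlc0
  obtain ⟨m, hm⟩ := hF.odd
  set S : EE ℚ := algebraMap ℚ (EE ℚ) lc * (om ^ n * R)⁻¹ with hS
  have hon : om ^ n * R ≠ 0 := mul_ne_zero (pow_ne_zero _ om_ne) hR0
  have hS0 : S ≠ 0 := mul_ne_zero hlcE0 (inv_ne_zero hon)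
  have hSR : S * (om ^ n * R) = algebraMap ℚ (EE ℚ) lc := by
    rw [hS, mul_assoc, inv_mul_cancel₀ hon, mul_one]
  have hot : om ^ 2 * ta = 1 := by rw [om_sq, inv_mul_cancel₀ ta_ne]
  have hotn : (om ^ n) ^ 2 * ta ^ n = 1 := by
    rw [← pow_mul, mul_comm n 2, pow_mul, ← mul_pow, hot, one_pow]
  set f : ℚ[X] := C lc * fg F g with hf
  have hSS : S * S = aeval ta f := by
    have h1 : (om ^ n * R) * (om ^ n * R) ≠ 0 := mul_ne_zero hon hon
    apply mul_right_cancel₀ h1
    rw [hf, map_mul, aeval_C]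
    linear_combination (S * (om ^ n * R) + algebraMap ℚ (EE ℚ) lc) * hSR -
      (algebraMap ℚ (EE ℚ) lc * (om ^ n) ^ 2) * hrel - algebraMap ℚ (EE ℚ) lc * algebraMap ℚ (EE ℚ) lc * hotn
  have hf0 : aeval ta f ≠ 0 := by
    rw [← hSS]
    exact mul_ne_zero hS0 hS0
  have hDS : 2 * aeval ta f * DD DE S = aeval ta (derivative f) * S := by
    have h1 : DD DE (S * S) = aeval ta (derivative f) := by rw [hSS, DD_aeval hDE]
    rw [Derivation.leibniz, smul_eq_mul] at h1
    rw [← h1, ← hSS]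
    ring
  -- the coefficient
  set hh : EE ℚ := b * (om ^ 2) ^ (m + 1) * R ^ 2 * (algebraMap ℚ (EE ℚ) lc)⁻¹ with hhh
  have hhK : hh ∈ K0 := mul_mem (mul_mem (mul_mem hb (pow_mem om_sq_K0 _)) (R_sq hrt hF g))
    (inv_mem (K0.algebraMap_mem lc))
  have hhS : b * (om * R) = hh * S := by
    have h1 : hh * S * (om ^ n * R) = b * (om ^ 2) ^ (m + 1) * R ^ 2 := by
      rw [mul_assoc, hSR, hhh, mul_assoc, inv_mul_cancel₀ hlcE0, mul_one]
    apply mul_right_cancel₀ hon
    rw [h1, ← pow_mul]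
    have h2 : om ^ (2 * (m + 1)) = om * om ^ n := by
      rw [hn, hm, ← pow_succ']
      congr 1
    rw [h2]
    ring
  obtain ⟨P, Q, hQ, hPQ⟩ := (mem_K0 hh).1 hhK
  have hQ' := congrArg (DD DE) hPQ
  rw [Derivation.leibniz, DD_aeval hDE, DD_aeval hDE, smul_eq_mul, smul_eq_mul] at hQ'
  have hmain : DD DE (hh * S) * S = -(aeval ta W) * algebraMap ℚ (EE ℚ) lc := by
    rw [← hhS, h, ← hSR]
    ring
  rw [Derivation.leibniz, smul_eq_mul, smul_eq_mul] at hmain
  have hfin : 2 * f * (derivative P * Q - P * derivative Q) + P * derivative f * Q = 2 * Q * Q * (-(C lc * W)) := by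
    rw [← sub_eq_zero]
    apply aeval_ta_inj
    apply (mul_eq_zero.1 _).resolve_left hf0
    simp only [map_sub, map_mul, map_add, map_neg, map_ofNat, aeval_C]
    have e1 : (hh * DD DE S + S * DD DE hh) * S = -(aeval ta W) * algebraMap ℚ (EE ℚ) lc := hmain
    -- multiply by 2 f Q^2
    have e2 : 2 * aeval ta f * (aeval ta Q) ^ 2 * ((hh * DD DE S + S * DD DE hh) * S) =
        aeval ta f * (2 * aeval ta f * (aeval ta (derivative P) * aeval ta Q - aeval ta P * aeval ta (derivative Q)) +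
          aeval ta P * aeval ta (derivative f) * aeval ta Q) := by
      have e3 : 2 * aeval ta f * (aeval ta Q) ^ 2 * ((hh * DD DE S + S * DD DE hh) * S) =
          (aeval ta Q) ^ 2 * hh * (2 * aeval ta f * DD DE S) * S +
            2 * aeval ta f * (S * S) * ((aeval ta Q) * (aeval ta Q * DD DE hh)) := by ring
      rw [e3, hDS, hSS]
      have e4 : aeval ta Q * DD DE hh = aeval ta (derivative P) - hh * aeval ta (derivative Q) := by
        linear_combination hQ'
      rw [e4]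
      have e5 : (aeval ta Q) ^ 2 * hh * (aeval ta (derivative f) * S) * S =
          aeval ta Q * (hh * aeval ta Q) * aeval ta (derivative f) * (S * S) := by ring
      rw [e5, hSS, hPQ]
      linear_combination (-2 * aeval ta f * aeval ta f * aeval ta (derivative Q)) * hPQ
    rw [e1] at e2
    linear_combination -e2
  have h0 := keyQ (squarefree_fg hF g lc hlc0) P Q _ hQ (by
    have h1 : (C lc * fg F g).natDegree = F.natDegree := by
      rw [natDegree_C_mul hlc0, fg_natDegree]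
    rw [h1, natDegree_neg, natDegree_C_mul hlc0]
    exact hW) hfin
  rw [neg_eq_zero, mul_eq_zero] at h0
  exact h0.resolve_left (C_ne_zero.2 hlc0)

omit hrt hF in
/-- the equation for the logarithms -/
theorem eq_log {N : ℕ} (g : Fin N → ℕ) (hg : Function.Injective g) (hg1 : ∀ l, 1 ≤ g l) (c : Fin N → ℚ) (b : EE ℚ)
    (hb : b ∈ K0)
    (h : DD DE b = ∑ l, algebraMap ℚ (EE ℚ) (c l) * DD DE (th (PowerSeries.mk fun m => - ((-(g l : ℚ)) ^ m / m)))) :
    c = 0 := by
  classical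
  obtain ⟨P, Q, hQ, hPQ⟩ := (mem_K0 b).1 hb
  have hQ' := congrArg (DD DE) hPQ
  rw [Derivation.leibniz, DD_aeval hDE, DD_aeval hDE, smul_eq_mul, smul_eq_mul] at hQ'
  let x : Fin (N + 1) → ℚ := Fin.cons 0 (fun l => (g l : ℚ))
  let e : Fin (N + 1) → ℚ := Fin.cons (-∑ l, c l) c
  have hx0 : x 0 = 0 := rfl
  have hxs : ∀ l : Fin N, x l.succ = (g l : ℚ) := fun l => rfl
  have he0 : e 0 = -∑ l, c l := rfl
  have hes : ∀ l : Fin N, e l.succ = c l := fun l => rfl
  have hx : Function.Injective x := by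
    intro i j
    refine Fin.cases ?_ (fun i => ?_) i
    · refine Fin.cases ?_ (fun j => ?_) j
      · intro _; rfl
      · intro hij
        rw [hx0, hxs] at hij
        have := hg1 j
        have h2 : g j = 0 := by exact_mod_cast hij.symm
        omega
    · refine Fin.cases ?_ (fun j => ?_) j
      · intro hij
        rw [hx0, hxs] at hij
        have := hg1 i
        have h2 : g i = 0 := by exact_mod_cast hij
        omega
      · intro hij
        rw [hxs, hxs] at hij
        have h2 : i = j := hg (Nat.cast_injective hij)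
        rw [h2]
  have hne : ∀ i, aeval ta (X + C (x i)) ≠ 0 := by
    intro i h1
    have h2 := aeval_ta_inj _ h1
    have h3 := congrArg natDegree h2
    rw [natDegree_X_add_C, natDegree_zero] at h3
    exact one_ne_zero h3
  have hDb : DD DE b = ∑ i, algebraMap ℚ (EE ℚ) (e i) * (aeval ta (X + C (x i)))⁻¹ := by
    rw [h, Fin.sum_univ_succ, he0, hx0, C_0, add_zero, aeval_X, map_neg, map_sum, neg_mul, Finset.sum_mul,
      ← Finset.sum_neg_distrib, ← Finset.sum_add_distrib]
    refine Finset.sum_congr rfl fun l _ => ?_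
    rw [hxs, hes]
    have h1 := DD_log hDE (g l)
    have h2 := hne l.succ
    rw [hxs] at h2
    have h3 : aeval ta (X + C (g l : ℚ)) = ta + (g l : EE ℚ) := by simp
    rw [h3] at h2 ⊢
    have h4 : DD DE (th (PowerSeries.mk fun m => - ((-(g l : ℚ)) ^ m / m))) = -(ta)⁻¹ + (ta + (g l : EE ℚ))⁻¹ := by
      have h5 : ta * (ta + (g l : EE ℚ)) ≠ 0 := mul_ne_zero ta_ne h2
      apply mul_right_cancel₀ h5
      rw [h1]
      field_simp [ta_ne]
      ring
    rw [h4]
    ring
  have hprod : ∀ i, aeval ta (∏ j, (X + C (x j))) =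
      aeval ta (X + C (x i)) * aeval ta (∏ j ∈ Finset.univ.erase i, (X + C (x j))) := by
    intro i
    rw [← map_mul]
    exact congrArg _ (Finset.mul_prod_erase Finset.univ (fun j => (X + C (x j) : ℚ[X])) (Finset.mem_univ i)).symm
  have hfin : (derivative P * Q - P * derivative Q) * ∏ i, (X + C (x i)) =
      Q * Q * ∑ i, C (e i) * ∏ j ∈ Finset.univ.erase i, (X + C (x j)) := by
    rw [← sub_eq_zero]
    apply aeval_ta_inj
    have e1 : DD DE b * aeval ta (∏ j, (X + C (x j))) =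
        aeval ta (∑ i, C (e i) * ∏ j ∈ Finset.univ.erase i, (X + C (x j))) := by
      rw [hDb, Finset.sum_mul, map_sum]
      refine Finset.sum_congr rfl fun i _ => ?_
      rw [hprod i, map_mul, aeval_C, mul_assoc]
      congr 1
      rw [← mul_assoc, inv_mul_cancel₀ (hne i), one_mul]
    rw [map_sub, map_mul, map_mul, map_mul, map_sub, map_mul, map_mul, ← e1, ← hPQ]
    linear_combination (aeval ta Q * aeval ta (∏ j, (X + C (x j)))) * (-hQ')
  have h0 := simpleQ x e hx P Q hQ hfin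
  funext l
  have h1 := congrFun h0 l.succ
  rw [hes] at h1
  exact h1

end eqs

end Pool.Agent.Y255.HL
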