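import Pool.Agent.Y255.HL.Ind

/-!
# Functional independence of shifted hyperelliptic integrals and logarithms (job 752, MP_c9768e_nt)
-/

set_option autoImplicit false

namespace Pool.Agent.Y255.HL

open Polynomial Pool.Agent.TH600.LC Pool.Agent.Y113 Pool.Agent.Y916.Hy

attribute [-instance] DivisionRing.toRatAlgebra

/-- the exponent -/
def qe (F : ℤ[X]) (j : ℕ) : ℤ := (F.natDegree : ℤ) - 2 - 2 * j

/-- the primitives -/
noncomputable def yy (F : ℤ[X]) {N : ℕ} (g : Fin N → ℕ) : Fin N × (Fin (F.natDegree - 1) ⊕ Unit) → EE ℚ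
  | (l, Sum.inl j) => om ^ (qe F j) * th (Yf F (g l) (Sum.inl j))
  | (l, Sum.inr u) => th (Yf F (g l) (Sum.inr u))

section main
variable {DE : Derivation ℚ (EE ℚ) (EE ℚ)} (hDE : ∀ u, DE (emb ℚ u) = emb ℚ (PowerSeries.derivative ℚ u))
  (hrt : S_rt) {F : ℤ[X]} (hF : Good F) {N : ℕ} (g : Fin N → ℕ)

/-- the derivation on the field of the square roots -/
noncomputable def DL : Derivation ℚ (Lf K0 (rr F g)) (Lf K0 (rr F g)) :=
  Derivation.mk' { toFun := fun x => ⟨DD DE x, D_Lf K0 (DD DE) (DD_K0 hDE) (rr_ne hrt hF g) (rr_sq hrt hF g) x x.2⟩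
                   map_add' := fun x y => Subtype.ext (by simp)
                   map_smul' := fun c x => Subtype.ext (by simp) }
    (fun a b => Subtype.ext (by simp [Derivation.leibniz]))

include hDE hF in
theorem DD_yy_inl (l : Fin N) (j : Fin (F.natDegree - 1)) : DD DE (yy F g (l, Sum.inl j)) =
    -(aeval ta ((X + C (g l : ℚ)) ^ (j : ℕ))) * (om ^ F.natDegree * th (Rt (phi F (g l)))) := by
  refine DD_int hDE F.natDegree (g l) j (qe F j) ?_ rfl _
  obtain ⟨m, hm⟩ := hF.odd
  refine ⟨(m : ℤ) - 1 - ((j : ℕ) : ℤ), ?_⟩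
  have h1 : (F.natDegree : ℤ) = 2 * m + 1 := by exact_mod_cast hm
  rw [qe, h1]
  ring

/-- the index of the products attached to the shift `l` -/
def tl {N : ℕ} (l : Fin N) : Finset (Option (Fin N)) := {none, some l}

theorem tl_ne (l : Fin N) : tl l ≠ ∅ := Finset.insert_ne_empty _ _

theorem tl_inj {l l' : Fin N} (h : tl l = tl l') : l = l' := by
  have h1 : some l ∈ tl l := by simp [tl]
  rw [h] at h1
  simpa [tl] using h1

theorem pr_tl (l : Fin N) : pr (rr F g) (tl l) = om * th (Rt (phi F (g l))) := by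
  unfold pr tl
  rw [Finset.prod_pair (by simp)]
  rfl

include hDE hrt hF in
theorem indep (hg : Function.Injective g) (hg1 : ∀ l, 1 ≤ g l) : AlgebraicIndependent (Lf K0 (rr F g)) (yy F g) := by
  classical
  set L := Lf K0 (rr F g) with hL
  have hr0 := rr_ne hrt hF g
  have hr2 := rr_sq hrt hF g
  have hns := rr_ns hrt hF g hg
  have homL : om ∈ L := r_mem K0 (r := rr F g) none
  have hRL : ∀ l, th (Rt (phi F (g l))) ∈ L := fun l => r_mem K0 (r := rr F g) (some l)
  have hlog : ∀ l, DD DE (th (PowerSeries.mk fun m => - ((-(g l : ℚ)) ^ m / m))) ∈ K0 := by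
    intro l
    have h1 := DD_log hDE (g l)
    have h3 : ta + (g l : EE ℚ) ≠ 0 := by
      intro h
      have h4 : aeval ta (X + C (g l : ℚ)) = 0 := by
        rw [map_add, aeval_X, aeval_C]
        rw [← h]
        simp
      have h5 := congrArg natDegree (aeval_ta_inj _ h4)
      rw [natDegree_X_add_C, natDegree_zero] at h5
      exact one_ne_zero h5
    have h2 : DD DE (th (PowerSeries.mk fun m => - ((-(g l : ℚ)) ^ m / m))) =
        -(g l : EE ℚ) * (ta * (ta + (g l : EE ℚ)))⁻¹ := by
      rw [← h1, mul_assoc, mul_inv_cancel₀ (mul_ne_zero ta_ne h3), mul_one]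
    rw [h2]
    exact mul_mem (neg_mem (natCast_mem K0 _)) (inv_mem (mul_mem ta_K0 (add_mem ta_K0 (natCast_mem K0 _))))
  have hw : ∀ i, DD DE (yy F g i) ∈ L := by
    rintro ⟨l, j | u⟩
    · rw [DD_yy_inl hDE hF g]
      exact mul_mem (neg_mem (K_le_Lf K0 (poly_K0 _))) (mul_mem (pow_mem homL _) (hRL l))
    · exact K_le_Lf K0 (hlog l)
  refine Pool.Agent.W253.LF.t_OST ℚ L (EE ℚ) (DL hDE hrt hF g) (DD DE) (fun x => rfl) (DD_const hDE) _ _
    (fun i => ⟨DD DE (yy F g i), hw i⟩) (fun i => rfl) ?_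
  intro c f hf
  obtain ⟨m, hm⟩ := hF.odd
  obtain ⟨a, ha, hfa⟩ := mem_Lf K0 hr2 (f : EE ℚ) f.2
  have hb : ∀ T, ∃ b ∈ K0, DD DE (a T * pr (rr F g) T) = b * pr (rr F g) T := by
    intro T
    obtain ⟨l, hl, hD⟩ := root_eig K0 (DD DE) (DD_K0 hDE) hr0 hr2 T
    refine ⟨DD DE (a T) + a T * l, add_mem (DD_K0 hDE _ (ha T)) (mul_mem (ha T) hl), ?_⟩
    rw [Derivation.leibniz, hD, smul_eq_mul, smul_eq_mul]
    ring
  choose b hbK hb using hb
  set W : Fin N → ℚ[X] := fun l => ∑ j : Fin (F.natDegree - 1), C (c (l, Sum.inl j)) * (X + C (g l : ℚ)) ^ (j : ℕ) with hW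
  set γ : Fin N → EE ℚ := fun l => -(aeval ta (W l)) * (om ^ 2) ^ m with hγ
  set β : EE ℚ := ∑ l, algebraMap ℚ (EE ℚ) (c (l, Sum.inr ())) *
    DD DE (th (PowerSeries.mk fun m => - ((-(g l : ℚ)) ^ m / m))) with hβ
  have hγK : ∀ l, γ l ∈ K0 := fun l => mul_mem (neg_mem (poly_K0 _)) (pow_mem om_sq_K0 _)
  have hβK : β ∈ K0 := sum_mem fun l _ => mul_mem (K0.algebraMap_mem _) (hlog l)
  have hon : om ^ F.natDegree = (om ^ 2) ^ m * om := by rw [hm, pow_succ, pow_mul]
  have hγpr : ∀ l, γ l * pr (rr F g) (tl l) = -(aeval ta (W l)) * (om ^ F.natDegree * th (Rt (phi F (g l)))) := by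
    intro l
    rw [pr_tl, hon, hγ]
    ring
  have hDf : DD DE (f : EE ℚ) = ∑ l, γ l * pr (rr F g) (tl l) + β := by
    have h1 : (f : EE ℚ) = ∑ i, algebraMap ℚ (EE ℚ) (c i) * yy F g i := hf.symm
    rw [h1, map_sum, Fintype.sum_prod_type, hβ, ← Finset.sum_add_distrib]
    refine Finset.sum_congr rfl fun l _ => ?_
    rw [Fintype.sum_sum_type, hγpr]
    congr 1
    · rw [hW]
      simp only [map_sum, map_mul, aeval_C, neg_mul, Finset.sum_mul, ← Finset.sum_neg_distrib]
      refine Finset.sum_congr rfl fun j _ => ?_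
      rw [Derivation.leibniz, Derivation.map_algebraMap, smul_zero, add_zero, smul_eq_mul, DD_yy_inl hDE hF g]
      ring
    · rw [Fintype.sum_unique, Derivation.leibniz, Derivation.map_algebraMap, smul_zero, add_zero, smul_eq_mul]
      rfl
  have hDf2 : DD DE (f : EE ℚ) = ∑ T, b T * pr (rr F g) T := by
    rw [hfa, map_sum]
    exact Finset.sum_congr rfl fun T _ => hb T
  set cc : Finset (Option (Fin N)) → EE ℚ := fun T =>
    b T - (if T = ∅ then β else 0) - ∑ l, (if T = tl l then γ l else 0) with hcc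
  have hccK : ∀ T, cc T ∈ K0 := by
    intro T
    refine sub_mem (sub_mem (hbK T) ?_) (sum_mem fun l _ => ?_)
    · split_ifs
      · exact hβK
      · exact zero_mem _
    · split_ifs
      · exact hγK l
      · exact zero_mem _
  have hsum : ∑ T, cc T * pr (rr F g) T = 0 := by
    have h1 : ∑ T, (if T = ∅ then β else 0) * pr (rr F g) T = β := by
      rw [Finset.sum_eq_single ∅]
      · rw [if_pos rfl, pr_empty, mul_one]
      · intro T _ hT
        rw [if_neg hT, zero_mul]
      · intro h; exact absurd (Finset.mem_univ _) h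
    have h2 : ∑ T, (∑ l, (if T = tl l then γ l else 0)) * pr (rr F g) T = ∑ l, γ l * pr (rr F g) (tl l) := by
      simp only [Finset.sum_mul]
      rw [Finset.sum_comm]
      refine Finset.sum_congr rfl fun l _ => ?_
      rw [Finset.sum_eq_single (tl l)]
      · rw [if_pos rfl]
      · intro T _ hT
        rw [if_neg hT, zero_mul]
      · intro h; exact absurd (Finset.mem_univ _) h
    simp only [hcc, sub_mul, Finset.sum_sub_distrib]
    rw [h1, h2, ← hDf2, hDf]
    ring
  have hzero : ∀ T, cc T = 0 := fun T =>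
    pr_lin K0 (DD DE) (DD_K0 hDE) (const_K0 hDE) hr0 hr2 hns Finset.univ cc hccK hsum T (Finset.mem_univ T)
  have hc1 : ∀ l, W l = 0 := by
    intro l
    have h1 := hzero (tl l)
    rw [hcc] at h1
    simp only at h1
    rw [if_neg (tl_ne l), sub_zero, Finset.sum_eq_single l] at h1
    · rw [if_pos rfl, sub_eq_zero] at h1
      have h2 := hb (tl l)
      rw [h1, hγpr, pr_tl] at h2
      refine eq_int hDE hrt hF (g l) (W l) ?_ (a (tl l)) (ha _) h2
      have h3 : (W l).natDegree ≤ F.natDegree - 2 := by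
        refine natDegree_sum_le_of_forall_le _ _ fun j _ => ?_
        refine (natDegree_C_mul_le _ _).trans ?_
        rw [natDegree_pow, natDegree_X_add_C, mul_one]
        have := j.2
        omega
      have := hF.deg
      omega
    · intro l' _ hl'
      rw [if_neg]
      intro h
      exact hl' (tl_inj h).symm
    · intro h; exact absurd (Finset.mem_univ _) h
  have hc2 : (fun l => c (l, Sum.inr ())) = 0 := by
    have h1 := hzero ∅
    rw [hcc] at h1
    simp only at h1
    rw [if_pos trivial, Finset.sum_eq_zero, sub_zero, sub_eq_zero] at h1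
    · have h2 := hb ∅
      rw [h1, pr_empty, mul_one, mul_one] at h2
      exact eq_log hDE g hg hg1 _ (a ∅) (ha _) h2
    · intro l _
      rw [if_neg (tl_ne l).symm]
  funext i
  rcases i with ⟨l, j | u⟩
  · have h1 := congrArg (fun p : ℚ[X] => p.comp (X - C (g l : ℚ))) (hc1 l)
    simp only [hW, Polynomial.sum_comp, mul_comp, C_comp, pow_comp, add_comp, X_comp, sub_add_cancel, zero_comp] at h1
    have h2 := congrArg (fun p : ℚ[X] => p.coeff j) h1
    simp only [finsetSum_coeff, coeff_zero, coeff_C_mul, coeff_X_pow] at h2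
    rw [Finset.sum_eq_single j] at h2
    · rw [if_pos rfl, mul_one] at h2
      exact h2
    · intro j' _ hj'
      rw [if_neg, mul_zero]
      intro h
      exact hj' (Fin.ext h.symm)
    · intro h; exact absurd (Finset.mem_univ _) h
  · exact congrFun hc2 l

/-- the factor between the powers of the integrals and of the power series -/
noncomputable def ka (F : ℤ[X]) {N : ℕ} : Fin N × (Fin (F.natDegree - 1) ⊕ Unit) → EE ℚ
  | (_, Sum.inl j) => om ^ (-(qe F j))
  | (_, Sum.inr _) => 1

theorem ka_ne (x : Fin N × (Fin (F.natDegree - 1) ⊕ Unit)) : ka F x ≠ 0 := by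
  rcases x with ⟨l, j | u⟩
  · exact zpow_ne_zero _ om_ne
  · exact one_ne_zero

theorem ka_yy (x : Fin N × (Fin (F.natDegree - 1) ⊕ Unit)) : th (Yf F (g x.1) x.2) = ka F x * yy F g x := by
  rcases x with ⟨l, j | u⟩
  · change _ = om ^ (-(qe F j)) * (om ^ (qe F j) * th (Yf F (g l) (Sum.inl j)))
    rw [← mul_assoc, ← zpow_add₀ om_ne, neg_add_cancel, zpow_zero, one_mul]
  · exact (one_mul _).symm

theorem pr_map (ε : Finset (Fin N)) : pr (rr F g) (ε.map Function.Embedding.some) = ∏ l ∈ ε, th (Rt (phi F (g l))) := by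
  unfold pr
  rw [Finset.prod_map]
  rfl

end main

/-- (HLI): functional independence of shifted hyperelliptic integrals, square roots and logarithms -/
theorem t_hli (hrt : S_rt) : S_hli := by
  classical
  intro F hF N g hg hg1
  obtain ⟨DF, DE, hDF, hDE, hcc⟩ := Pool.Agent.Y796.LI.exists_pair ℚ
  have hind := indep hDE hrt hF g hg hg1
  rw [linearIndependent_iff']
  intro s c hsum p₀ hp₀
  set L := Lf K0 (rr F g) with hL
  have hkaL : ∀ x : Fin N × (Fin (F.natDegree - 1) ⊕ Unit), ka F x ∈ L := by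
    rintro ⟨l, j | u⟩
    · exact zpow_mem (r_mem K0 (r := rr F g) none) _
    · exact one_mem _
  -- the relation in the field
  have h1 : ∑ p ∈ s, aeval (om ^ 2) (c p) * (∏ l ∈ p.1, th (Rt (phi F (g l)))) *
      (p.2.prod fun x e => ka F x ^ e) * (p.2.prod fun x e => yy F g x ^ e) = 0 := by
    have h2 := congrArg th hsum
    rw [map_zero, map_sum] at h2
    rw [← h2]
    refine Finset.sum_congr rfl fun p _ => ?_
    rw [Algebra.smul_def, map_mul, map_mul, map_prod, mul_assoc, mul_assoc]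
    congr 1
    · exact (th_poly (c p)).symm
    · congr 1
      rw [Finsupp.prod, Finsupp.prod, Finsupp.prod, map_prod, ← Finset.prod_mul_distrib]
      refine Finset.prod_congr rfl fun x _ => ?_
      rw [map_pow, ka_yy, mul_pow]
  have hco : ∀ p : Finset (Fin N) × (Fin N × (Fin (F.natDegree - 1) ⊕ Unit) →₀ ℕ),
      aeval (om ^ 2) (c p) * (∏ l ∈ p.1, th (Rt (phi F (g l)))) * (p.2.prod fun x e => ka F x ^ e) ∈ L := by
    intro p
    refine mul_mem (mul_mem (K_le_Lf K0 (poly2_K0 _)) (prod_mem fun l _ => r_mem K0 (r := rr F g) (some l))) ?_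
    rw [Finsupp.prod]
    exact prod_mem fun x _ => pow_mem (hkaL x) _
  set P : MvPolynomial (Fin N × (Fin (F.natDegree - 1) ⊕ Unit)) L :=
    ∑ p ∈ s, MvPolynomial.monomial p.2 (⟨_, hco p⟩ : L) with hP
  have h2 : MvPolynomial.aeval (yy F g) P = 0 := by
    rw [hP, map_sum, ← h1]
    refine Finset.sum_congr rfl fun p _ => ?_
    rw [MvPolynomial.aeval_monomial]
    rfl
  have h3 : P = 0 := hind.eq_zero_of_aeval_eq_zero _ h2
  -- the coefficient
  set s' := s.filter (fun p => p.2 = p₀.2) with hs'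
  have h4 := congrArg (MvPolynomial.coeff p₀.2) h3
  rw [hP, MvPolynomial.coeff_sum, MvPolynomial.coeff_zero] at h4
  simp only [MvPolynomial.coeff_monomial] at h4
  rw [← Finset.sum_filter] at h4
  have h5 := congrArg (fun x : L => (x : EE ℚ)) h4
  simp only [ZeroMemClass.coe_zero, AddSubmonoidClass.coe_finsetSum] at h5
  have hκ : (p₀.2.prod fun x e => ka F x ^ e) ≠ 0 := by
    rw [Finsupp.prod]
    exact Finset.prod_ne_zero_iff.2 fun x _ => pow_ne_zero _ (ka_ne x)
  have h6 : ∑ p ∈ s', aeval (om ^ 2) (c p) * pr (rr F g) (p.1.map Function.Embedding.some) = 0 := by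
    apply (mul_eq_zero.1 _).resolve_right hκ
    rw [Finset.sum_mul, ← h5]
    refine Finset.sum_congr rfl fun p hp => ?_
    rw [pr_map, (Finset.mem_filter.1 hp).2]
  -- linear independence of the products of the square roots
  have hinj : Set.InjOn (fun p : Finset (Fin N) × (Fin N × (Fin (F.natDegree - 1) ⊕ Unit) →₀ ℕ) =>
      p.1.map Function.Embedding.some) s' := by
    intro p hp q hq hpq
    have e1 : p.1 = q.1 := Finset.map_injective _ hpq
    have e2 : p.2 = p₀.2 := (Finset.mem_filter.1 hp).2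
    have e3 : q.2 = p₀.2 := (Finset.mem_filter.1 hq).2
    exact Prod.ext e1 (e2.trans e3.symm)
  set a : Finset (Option (Fin N)) → EE ℚ := fun T => aeval (om ^ 2) (c (Finset.eraseNone T, p₀.2)) with ha
  have h7 : ∑ T ∈ s'.image (fun p => p.1.map Function.Embedding.some), a T * pr (rr F g) T = 0 := by
    rw [Finset.sum_image hinj, ← h6]
    refine Finset.sum_congr rfl fun p hp => ?_
    simp only [ha, Finset.eraseNone_map_some]
    have e2 : p.2 = p₀.2 := (Finset.mem_filter.1 hp).2
    rw [← e2]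
  have h8 := pr_lin K0 (DD DE) (DD_K0 hDE) (const_K0 hDE) (rr_ne hrt hF g) (rr_sq hrt hF g) (rr_ns hrt hF g hg) _ a
    (fun T => poly2_K0 _) h7 (p₀.1.map Function.Embedding.some)
    (Finset.mem_image.2 ⟨p₀, Finset.mem_filter.2 ⟨hp₀, rfl⟩, rfl⟩)
  simp only [ha, Finset.eraseNone_map_some] at h8
  rw [← th_poly] at h8
  have h9 := th_inj (h8.trans (map_zero th).symm)
  exact Polynomial.coe_injective _ (by rw [h9, Polynomial.coe_zero])

end Pool.Agent.Y255.HL
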